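import Pool.Agent.Lib.MP_456481_pr.Final

set_option autoImplicit false

open MeasureTheory ProbabilityTheory Filter

namespace Pool.Agent.Results.MP_456481_pr.AlmostAllMixing

/-- The random walk `X_0 = 0`, `X_{n+1} = a X_n + b_n` driven by the sequence `b`. -/
def walk {Ω : Type*} (a : ℕ) (b : ℕ → Ω → ℕ) : ℕ → Ω → ℕ
  | 0, _ => 0
  | n + 1, ω => a * walk a b n ω + b n ω

/-- `d_q(n)`: the total variation distance between the law of `X_n mod q` and the uniform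
distribution on the residues `0, …, q - 1`. -/
noncomputable def tvDist {Ω : Type*} [MeasurableSpace Ω] (μ : Measure Ω) (a : ℕ)
    (b : ℕ → Ω → ℕ) (q n : ℕ) : ℝ :=
  (1 / 2) * ∑ x ∈ Finset.range q, |μ.real {ω | walk a b n ω % q = x} - 1 / q|

/-- The mixing time `t_q = min {n ≥ 0 : d_q(n) ≤ 1/4}`. -/
noncomputable def mixTime {Ω : Type*} [MeasurableSpace Ω] (μ : Measure Ω) (a : ℕ)
    (b : ℕ → Ω → ℕ) (q : ℕ) : ℕ :=
  sInf {n : ℕ | tvDist μ a b q n ≤ 1 / 4}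

theorem walk_eq_lib {Ω : Type*} (a : ℕ) (b : ℕ → Ω → ℕ) (n : ℕ) (ω : Ω) :
    walk a b n ω = Pool.Agent.Lib.MP_456481_pr.walk a b n ω := by
  induction n with
  | zero => rfl
  | succ n ih => rw [walk, Pool.Agent.Lib.MP_456481_pr.walk, ih]

theorem tvDist_eq_lib {Ω : Type*} [MeasurableSpace Ω] (μ : Measure Ω) (a : ℕ)
    (b : ℕ → Ω → ℕ) (q n : ℕ) :
    tvDist μ a b q n = Pool.Agent.Lib.MP_456481_pr.tvDist μ a b q n := by
  unfold tvDist Pool.Agent.Lib.MP_456481_pr.tvDist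
  simp only [walk_eq_lib]

theorem mixTime_eq_lib {Ω : Type*} [MeasurableSpace Ω] (μ : Measure Ω) (a : ℕ)
    (b : ℕ → Ω → ℕ) (q : ℕ) :
    mixTime μ a b q = Pool.Agent.Lib.MP_456481_pr.mixTime μ a b q := by
  unfold mixTime Pool.Agent.Lib.MP_456481_pr.mixTime
  simp only [tvDist_eq_lib]

open Classical in
/-- Let `a ≥ 5`, and let `b_0, b_1, …` be independent uniform bits.  For every `q ≥ 1` coprime to
`a` the walk `X_{n+1} = a X_n + b_n` mixes modulo `q`, and `t_q = (1 + o(1)) log₂ q` for almost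
all `q` coprime to `a`: for every `δ > 0` the number of `q ≤ x` coprime to `a` with
`|t_q / log₂ q - 1| > δ` is `o(#{q ≤ x : gcd(q, a) = 1})`. -/
theorem result (a : ℕ) (ha : 5 ≤ a) {Ω : Type*} [MeasurableSpace Ω] (μ : Measure Ω)
    [IsProbabilityMeasure μ] (b : ℕ → Ω → ℕ) (hmeas : ∀ i, Measurable (b i))
    (hind : iIndepFun b μ)
    (h0 : ∀ i, μ.real {ω | b i ω = 0} = 1 / 2) (h1 : ∀ i, μ.real {ω | b i ω = 1} = 1 / 2) :
    (∀ q : ℕ, 0 < q → Nat.Coprime q a → ∃ n : ℕ, tvDist μ a b q n ≤ 1 / 4) ∧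
    ∀ δ : ℝ, 0 < δ →
      (fun x : ℕ => (((Finset.Icc 2 x).filter (fun q => Nat.Coprime q a ∧
        δ < |(mixTime μ a b q : ℝ) / Real.logb 2 q - 1|)).card : ℝ)) =o[atTop]
      (fun x : ℕ => (((Finset.Icc 2 x).filter (fun q => Nat.Coprime q a)).card : ℝ)) := by
  refine ⟨?_, ?_⟩
  · intro q hq hcop
    obtain ⟨n, hn⟩ := Pool.Agent.Lib.MP_456481_pr.exists_tvDist_le a ha hmeas hind h0 h1 q hq hcop
    exact ⟨n, by rw [tvDist_eq_lib]; exact hn⟩
  · intro δ hδ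
    simp only [mixTime_eq_lib]
    exact Pool.Agent.Lib.MP_456481_pr.final a ha hmeas hind h0 h1 δ hδ

end Pool.Agent.Results.MP_456481_pr.AlmostAllMixing
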